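import Pool.Agent.H521.G.Maier7

open MeasureTheory Set Filter Topology
open scoped ENNReal ComplexConjugate

namespace Pool.Agent.Results.MP_b0c12c_nt.CramerConstantAndMaierFunctions

/-- A sequence of (Beurling) generalised primes `1 < p 0 < p 1 < ⋯ → ∞`. -/
structure GenPrimes (p : ℕ → ℝ) : Prop where
  one_lt : 1 < p 0
  strictMono : StrictMono p
  tendsto : Tendsto p atTop atTop

/-- The generalised integer `∏ p_j ^ (e j)` with exponent vector `e`. -/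
noncomputable def genInt (p : ℕ → ℝ) (e : ℕ →₀ ℕ) : ℝ := e.prod fun j k => p j ^ k

/-- `N_P(x)`, the number of generalised integers `≤ x`, counted with multiplicity. -/
noncomputable def countInts (p : ℕ → ℝ) (x : ℝ) : ℕ := Set.ncard {e : ℕ →₀ ℕ | genInt p e ≤ x}

/-- `π_P(x)`, the number of generalised primes `≤ x`. -/
noncomputable def countPrimes (p : ℕ → ℝ) (x : ℝ) : ℕ := Set.ncard {j : ℕ | p j ≤ x}

/-- The zeta function `ζ_P(s) = ∑ n^{-s}` over the generalised integers. -/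
noncomputable def zetaP (p : ℕ → ℝ) (s : ℂ) : ℂ := ∑' e : ℕ →₀ ℕ, ((genInt p e : ℝ) : ℂ) ^ (-s)

/-- The main term `∫_2^x (1 - ∑_{ρ ∈ Z} Re u^{ρ-1}) du / log u` of the prime counting function,
that is `li x - ∑_ρ li x^ρ` up to a constant, for a finite multiset `Z` of zeros. -/
noncomputable def primeMain (Z : Multiset ℂ) (x : ℝ) : ℝ :=
  ∫ u in (2 : ℝ)..x, (1 - (Z.map fun ρ => ((u : ℂ) ^ (ρ - 1)).re).sum) / Real.log u

/-- `p` is a system of generalised primes whose zeta function continues to `Re s > 1/2`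
with only a simple pole at `1`, with zeros exactly `Z` there (with multiplicity) and with the
Lindelöf bound, and with square-root error terms in the counting of generalised integers and
of generalised primes.  For `Z = 0` this is the Riemann hypothesis for `p`. -/
structure System (Z : Multiset ℂ) (p : ℕ → ℝ) : Prop where
  primes : GenPrimes p
  summable : ∀ s : ℂ, 1 < s.re → Summable fun e : ℕ →₀ ℕ => ((genInt p e : ℝ) : ℂ) ^ (-s)
  zeta : ∃ g : ℂ → ℂ, DifferentiableOn ℂ g {s : ℂ | 1 / 2 < s.re} ∧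
    (∀ s : ℂ, 1 < s.re → (s - 1) * zetaP p s = (Z.map fun ρ => s - ρ).prod * Complex.exp (g s)) ∧
    ∀ ε : ℝ, 0 < ε → ∃ C : ℝ, ∀ s : ℂ, 1 / 2 + ε ≤ s.re →
      ‖(Z.map fun ρ => s - ρ).prod * Complex.exp (g s)‖ ≤ C * (1 + ‖s‖) ^ (1 + ε)
  ints : ∃ κ : ℝ, 0 < κ ∧ ∀ ε : ℝ, 0 < ε → ∃ C : ℝ, ∀ x : ℝ, 1 ≤ x →
    |(countInts p x : ℝ) - κ * x| ≤ C * x ^ (1 / 2 + ε)
  pnt : ∀ ε : ℝ, 0 < ε → ∃ C : ℝ, ∀ x : ℝ, 2 ≤ x →
    |(countPrimes p x : ℝ) - primeMain Z x| ≤ C * x ^ (1 / 2 + ε)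

/-- The Cramér constant `limsup (p_{n+1} - p_n) / (log p_n)^2 ∈ [0,∞]`. -/
noncomputable def cramerConst (p : ℕ → ℝ) : ℝ≥0∞ :=
  limsup (fun n => ENNReal.ofReal ((p (n + 1) - p n) / Real.log (p n) ^ 2)) atTop

/-- The ratio of `π_P(x + (log x)^a) - π_P(x)` and its expected size `(log x)^(a-1)`. -/
noncomputable def maierRatio (p : ℕ → ℝ) (a x : ℝ) : ℝ≥0∞ :=
  ENNReal.ofReal (((countPrimes p (x + Real.log x ^ a) : ℝ) - countPrimes p x) /
    Real.log x ^ (a - 1))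

/-- The lower Maier function. -/
noncomputable def lowerMaier (p : ℕ → ℝ) (a : ℝ) : ℝ≥0∞ := liminf (maierRatio p a) atTop

/-- The upper Maier function. -/
noncomputable def upperMaier (p : ℕ → ℝ) (a : ℝ) : ℝ≥0∞ := limsup (maierRatio p a) atTop

open Pool.Agent.H521 Pool.Agent.H521.G in
/-- **Theorem.** The triples (Cramér constant, lower and upper Maier function) that occur for
systems of generalised primes with Riemann hypothesis (or any other finite set of zeros) and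
with square-root error terms. -/
theorem result (Z : Multiset ℂ) (hZ : ∀ ρ ∈ Z, 1 / 2 < ρ.re ∧ ρ.re < 1)
    (hZc : Z.map conj = Z) (c : ℝ≥0∞) (L U : ℝ → ℝ≥0∞) :
    (∃ p : ℕ → ℝ, System Z p ∧ cramerConst p = c ∧
      ∀ a : ℝ, 1 < a → a ≠ 2 → lowerMaier p a = L a ∧ upperMaier p a = U a) ↔
    (∀ a b : ℝ, 1 < a → a ≠ 2 → b ≠ 2 → a ≤ b → L a ≤ L b ∧ U b ≤ U a) ∧
    (∀ a : ℝ, 1 < a → a ≠ 2 → L a ≤ 1 ∧ 1 ≤ U a) ∧
    (0 < c → ∀ a : ℝ, 1 < a → a < 2 → L a = 0) := by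
  have hZ1 : ∀ ρ ∈ Z, ρ.re < 1 := fun ρ h => (hZ ρ h).2
  constructor
  · rintro ⟨p, hS, hc, h⟩
    have hp := hS.primes.strictMono
    have hpt := hS.primes.tendsto
    refine ⟨fun a b ha ha2 hb2 hab => ?_, fun a ha ha2 => ?_, fun hc0 a ha ha2 => ?_⟩
    · have hb : 1 < b := lt_of_lt_of_le ha hab
      rw [← (h a ha ha2).1, ← (h b hb hb2).1, ← (h a ha ha2).2, ← (h b hb hb2).2]
      exact ⟨low_mono hpt ha hab, up_anti hpt ha hab⟩
    · rw [← (h a ha ha2).1, ← (h a ha ha2).2]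
      exact ⟨low_le_one hZ1 hpt hS.pnt ha, one_le_up hZ1 hpt hS.pnt ha⟩
    · rw [← (h a ha ha2.ne).1]
      rw [← hc] at hc0
      exact low_zero hp hpt hc0 ha2
  · rintro ⟨h1, h2, h3⟩
    obtain ⟨p, hS, hc, h⟩ := maier_suff hZ1 hZc (c := c) (L := L) (U := U)
      (fun a ha b hb hab => (h1 a b ha.1 ha.2 hb.2 hab).1)
      (fun a ha b hb hab => (h1 a b ha.1 ha.2 hb.2 hab).2)
      (fun a ha => (h2 a ha.1 ha.2).1) (fun a ha => (h2 a ha.1 ha.2).2)
      (fun hc a ha ha2 => h3 hc a ha.1 ha2)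
    exact ⟨p, ⟨⟨by linarith [hS.three_le 0], hS.mono, hS.tendsto⟩, hS.summable, hS.zeta,
      hS.ints, hS.pnt⟩, hc, fun a ha ha2 => h a ⟨ha, ha2⟩⟩

end Pool.Agent.Results.MP_b0c12c_nt.CramerConstantAndMaierFunctions
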