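import Mathlib
import Pool.Agent.H524.LexC
import Pool.Agent.H524.LexD

/-!
Cramér's limit superior for polynomials over a finite field with an even number of elements,
enumerated in their natural order.

Number the `q` elements of a finite field `K` from `0` to `q - 1`, the zero element getting the
number `0`. A polynomial `P` over `K` is then encoded by the natural number `code e P` whose
base `q` digits are (the numbers of) its coefficients, and this puts the polynomials over `K` in the
usual order (by degree, then by leading coefficient, and so on). The set of codes of irreducible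
polynomials takes the place of the set of prime numbers.
-/

open Polynomial

/-- `limsup (p_{n+1} - p_n) / (log p_n) ^ 2`, where `p₀ < p₁ < ...` are the codes of the
irreducible polynomials over `K`. -/
noncomputable def Pool.Agent.Results.MP_b0c12c_nt.FunctionFieldGapLimsup.gapLimsup
    {K : Type*} [Field K] [Fintype K] (e : K ≃ Fin (Fintype.card K)) : EReal :=
  Filter.limsup (fun n : ℕ =>
    (((((Nat.nth (Pool.Agent.H524.IsIrreducibleCode e) (n + 1) : ℕ) : ℝ) -
      ((Nat.nth (Pool.Agent.H524.IsIrreducibleCode e) n : ℕ) : ℝ)) /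
      (Real.log ((Nat.nth (Pool.Agent.H524.IsIrreducibleCode e) n : ℕ) : ℝ)) ^ 2 : ℝ) : EReal))
    Filter.atTop

/-- Let `K` be a finite field with an even number `q` of elements, numbered by `e` with
`e 0 = 0`, and let `L_q = limsup (p_{n+1} - p_n) / (log p_n) ^ 2`, where `p₀ < p₁ < ...` are the
codes of the irreducible polynomials over `K`. Then
(1) `L_q ≥ (q - 1) ^ 3 / (16 * q * (log q) ^ 2)`;
(2) `L_q > 1` if `q ≥ 16`;
(3) `L_q > 1 / log q` if `q ≥ 8`. -/
theorem Pool.Agent.Results.MP_b0c12c_nt.FunctionFieldGapLimsup.result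
    (K : Type*) [Field K] [Fintype K] (hK : Even (Fintype.card K))
    (e : K ≃ Fin (Fintype.card K)) (he : (e 0 : ℕ) = 0) :
    (((((Fintype.card K : ℝ) - 1) ^ 3 /
      (16 * (Fintype.card K : ℝ) * (Real.log (Fintype.card K : ℝ)) ^ 2) : ℝ)) : EReal) ≤
      Pool.Agent.Results.MP_b0c12c_nt.FunctionFieldGapLimsup.gapLimsup e ∧
    (16 ≤ Fintype.card K →
      1 < Pool.Agent.Results.MP_b0c12c_nt.FunctionFieldGapLimsup.gapLimsup e) ∧
    (8 ≤ Fintype.card K → ((1 / Real.log (Fintype.card K : ℝ) : ℝ) : EReal) <
      Pool.Agent.Results.MP_b0c12c_nt.FunctionFieldGapLimsup.gapLimsup e) := by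
  have h1 : (((((Fintype.card K : ℝ) - 1) ^ 3 /
      (16 * (Fintype.card K : ℝ) * (Real.log (Fintype.card K : ℝ)) ^ 2) : ℝ)) : EReal) ≤
      Pool.Agent.Results.MP_b0c12c_nt.FunctionFieldGapLimsup.gapLimsup e :=
    Pool.Agent.H524.limsup_gap_ge _ (Pool.Agent.H524.infinite_codes e he) _
      (fun c hc0 hc N => Pool.Agent.H524.exists_long_block hK e he c hc0 hc N)
  obtain ⟨j, hj⟩ := Pool.Agent.H524.card_eq_two_pow hK
  refine ⟨h1, fun h16 => lt_of_lt_of_le ?_ h1, fun h8 => lt_of_lt_of_le ?_ h1⟩
  · exact_mod_cast Pool.Agent.H524.one_lt_gap j (Fintype.card K) hj h16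
  · exact_mod_cast Pool.Agent.H524.model_lt_gap j (Fintype.card K) hj h8
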