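import Pool.Agent.H301.SV.Two

/-!
# No sieve detects gaps longer than Cramér's `(log Q) ^ (2 + ε)`

A real function `w` has level `Q` if it is a sum of functions with periods `d ≤ Q`; there is no condition on sign, size or
shape (upper and lower bound sieves, differences and products of such functions, weights of Selberg or Maynard type, restricted
to residue classes or not).  A sieve which finds long intervals `(n, n + U]` with few `Q`-rough numbers is a function `w` of
level `Q` with positive mean which is `≤ 0` at every `n` for which the interval contains many integers free of the primes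
`≤ Q`.  We prove that for `U ≥ (log Q) ^ (2 + ε)` there is no such `w`, not even to detect intervals in which the number of
rough integers is smaller than a small constant times the expected number `U / log Q`.  The exponent is that of Cramér's
conjecture.  For nonnegative `w` this was known in the library (helper829); here `w` may change sign.

Proof: Jensen's inequality for kernels which undo the sieving at the primes of a window (projects LR and LG of helper422, by
helpers of an earlier run), the linear sieve in intervals (helper829), and the quantitative assembly (helper301).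
-/

set_option autoImplicit false

open Finset

namespace Pool.Agent.Results.MP_b0c12c_nt.NoSieveBeyondCramer

/-- the weight `w(n) = ∑_{d ≤ Q} c_d(n mod d)`, an arbitrary real function of level `Q` -/
noncomputable def weight (Q : ℕ) (c : ℕ → ℕ → ℝ) (n : ℕ) : ℝ := ∑ d ∈ Icc 1 Q, c d (n % d)

/-- the mean value of `F` over the period `Q!` -/
noncomputable def mean (Q : ℕ) (F : ℕ → ℝ) : ℝ := (∑ n ∈ range Q.factorial, F n) / (Q.factorial : ℝ)

/-- the number of `h`, `1 ≤ h ≤ U`, for which `n + h` has no prime factor `≤ Q` -/
noncomputable def rough (U Q n : ℕ) : ℕ := {h : ℕ | 1 ≤ h ∧ h ≤ U ∧ ∀ p : ℕ, p.Prime → p ≤ Q → ¬ p ∣ n + h}.ncard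

/-- Let `ε > 0`.  There is `κ > 0` such that for all large `Q`, all `U ≥ (log Q) ^ (2 + ε)` and every real function `w` of
level `Q`: if `w(n) ≤ 0` for all `n` for which `(n, n + U]` contains at least `κ U / log Q` integers without prime factors
`≤ Q`, then the mean of `w` is `≤ 0`. -/
theorem result (ε : ℝ) (hε : 0 < ε) : ∃ κ : ℝ, 0 < κ ∧ ∃ Q₀ : ℕ, ∀ Q : ℕ, Q₀ ≤ Q → ∀ U : ℕ,
    Real.log Q ^ (2 + ε) ≤ U → ∀ c : ℕ → ℕ → ℝ,
    (∀ n, κ * (U / Real.log Q) ≤ (rough U Q n : ℝ) → weight Q c n ≤ 0) → mean Q (weight Q c) ≤ 0 := by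
  obtain ⟨κ, hκ, Q₀, h⟩ := Pool.Agent.H301.SV.fx2 ε hε
  refine ⟨κ, hκ, Q₀, fun Q hQ U hU c hc => h Q hQ U hU c fun n hn => hc n ?_⟩
  have e1 : rough U Q n = (Pool.Agent.N422.LG.Sv U Q n).card := by
    unfold rough Pool.Agent.N422.LG.Sv
    rw [← Set.ncard_coe_finset]
    congr 1
    ext x
    simp only [Set.mem_ofPred_eq, coe_filter, mem_Icc, mem_filter]
    constructor
    · rintro ⟨a1, a2, a3⟩
      exact ⟨⟨a1, a2⟩, fun p hp => a3 p hp.2 hp.1.2⟩
    · rintro ⟨⟨a1, a2⟩, a3⟩
      exact ⟨a1, a2, fun p hp hpQ => a3 p ⟨⟨hp.one_lt.le, hpQ⟩, hp⟩⟩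
  rw [e1]
  exact hn

end Pool.Agent.Results.MP_b0c12c_nt.NoSieveBeyondCramer
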