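import Pool.Agent.H526.IR.Cls

/-!
# Clusters of primes in record gaps all of whose neighbours have many prime factors

Let `f(x) = log x (log₂ x)² log₄ x / (log₃ x)²` (iterated logarithms), the order of the largest gaps between
consecutive primes that are known (starting library). For every `m` there are `C` and `c > 0` such that, for all
large `X` and all `1 ≤ k ≤ c log X / log log X`, at least `X ^ (4 / 5)` integers `n`, `X < n ≤ 4X`, have the
following three properties.

(1) All the primes at distance at most `c f(X)` from `n` lie in `[n, n + C k]`.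
(2) There are at least `m` of them.
(3) Each of the integers `p + i` and `p - i`, `1 ≤ i ≤ k`, for each such prime `p`, is divisible by at least
`(c / k) π(log X)` of the `π(log X)` primes up to `log X`.

So (`k = 1`) there are clusters of at least `m` primes, of bounded diameter, which are isolated on the record scale on
both sides, while both neighbours `p - 1` and `p + 1` of each of their primes `p` have the largest possible order
`log p / log log p` of the number of prime factors.

Method: the coloured Maynard-Tao theorem with repelling weights in an arbitrary class modulo a power of `X`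
(`Pool.Agent.Q84.MB.exact_win`), Rankin's choice of the residue classes with prescribed places to be kept
(`Pool.Agent.TH101.RG.rsurvK`); new is the choice of the class (`Pool.Agent.H526.IR.cls`): the primes of the upper
half of the sieving range have a small harmonic sum, so that Rankin's choice does not need them, but they are a
positive proportion of all the primes of the range; they are made to divide the neighbours of the places kept.
-/

set_option autoImplicit false

open Finset Filter

namespace Pool.Agent.Results.MP_b0c12c_nt.RichNeighbours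

open Pool.Agent.H378R2 Pool.Agent.Q84.MB Pool.Agent.H526.IR

/-- The record scale `f(x) = log x (log₂ x)² log₄ x / (log₃ x)²` (iterated natural logarithms). -/
noncomputable def f (x : ℝ) : ℝ :=
  Real.log x * (Real.log (Real.log x)) ^ 2 * Real.log (Real.log (Real.log (Real.log x))) /
    (Real.log (Real.log (Real.log x))) ^ 2

/-- The number of the primes up to `log X` which divide `v`. -/
noncomputable def smallDivisors (X : ℝ) (v : ℕ) : ℕ :=
  ((Icc 1 ⌊Real.log X⌋₊).filter fun q => q.Prime ∧ q ∣ v).card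

/-- **Clusters of primes in record gaps with rich neighbours.** -/
theorem result (m : ℕ) : ∃ (C : ℕ) (c : ℝ), 0 < c ∧ ∃ X₀ : ℝ, ∀ X : ℝ, X₀ ≤ X → ∀ k : ℕ, 1 ≤ k →
    (k : ℝ) * Real.log (Real.log X) ≤ c * Real.log X →
    X ^ (4 / 5 : ℝ) ≤ ({n : ℕ | X < n ∧ (n : ℝ) ≤ 4 * X ∧
      (∀ p : ℕ, p.Prime → |(p : ℝ) - n| ≤ c * f X → n ≤ p ∧ p ≤ n + C * k) ∧
      m ≤ ((Icc n (n + C * k)).filter Nat.Prime).card ∧
      ∀ p : ℕ, p.Prime → |(p : ℝ) - n| ≤ c * f X → ∀ i : ℕ, 1 ≤ i → i ≤ k →
        c / k * Nat.primeCounting ⌊Real.log X⌋₊ ≤ smallDivisors X (p + i) ∧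
        c / k * Nat.primeCounting ⌊Real.log X⌋₊ ≤ smallDivisors X (p - i)}.ncard : ℝ) := by
  classical
  obtain ⟨K, _, hK1, c₁, _, hc₁, _, hmain⟩ := exact_win m
  obtain ⟨c, hc, hcls⟩ := cls K c₁ hc₁
  have hpnt := Pool.Agent.Helper923.PNT.pi_tendsto
  have hpi : ∀ᶠ X : ℝ in atTop, (Nat.primeCounting ⌊Real.log X⌋₊ : ℝ) * Real.log (Real.log X) /
      Real.log X < 2 :=
    ((tendsto_order.1 (hpnt.comp Real.tendsto_log_atTop)).2 2 (by norm_num))
  have hlog : ∀ᶠ X : ℝ in atTop, (Real.log X) ^ 2 ≤ X := by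
    have h := (Real.isLittleO_pow_log_id_atTop (n := 2)).def (show (0 : ℝ) < 1 by norm_num)
    filter_upwards [h, eventually_ge_atTop (1 : ℝ)] with t ht h1
    simp only [id, Real.norm_eq_abs, abs_of_nonneg (sq_nonneg (Real.log t)),
      abs_of_nonneg (by linarith : (0 : ℝ) ≤ t)] at ht
    linarith
  have t2 : Tendsto (fun X : ℝ => Real.log (Real.log X)) atTop atTop :=
    Real.tendsto_log_atTop.comp Real.tendsto_log_atTop
  obtain ⟨X₀, hX₀⟩ := eventually_atTop.1 (((((hmain 4 le_rfl).and hcls).and (hpi.and hlog)).and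
    (Real.tendsto_log_atTop.eventually_ge_atTop 2)).and ((t2.eventually_ge_atTop 2).and
    ((Pool.Agent.H312R2.RG.ev_ff 1 one_pos).and (eventually_ge_atTop (2 : ℝ)))))
  refine ⟨3 * K * K.factorial, c / 2, by positivity, X₀, fun X hX k hk hkX => ?_⟩
  obtain ⟨⟨⟨⟨hm, hc'⟩, hpiX, hlogX⟩, hT2⟩, hA2, hffX, hX2⟩ := hX₀ X hX
  obtain ⟨ps, S, -, hS, hSc, -, hwin⟩ := hm
  set T := Real.log X with hT
  set A := Real.log T with hA
  have hA0 : 0 < A := by linarith
  have hT0 : 0 < T := by linarith
  obtain ⟨a, D, s, hD, hV, hcop, hs1, hs2, hrich⟩ := hc' ps S hS hSc k hk (hkX.trans (by nlinarith))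
  obtain ⟨d, hd⟩ : ∃ d : ℕ, d = K.factorial * (2 * k + 1) := ⟨_, rfl⟩
  rw [← hd] at hcop hs2 hrich
  have hd1 : 1 ≤ d := by
    rw [hd]
    exact Nat.mul_pos (Nat.factorial_pos K) (by omega)
  have hdk : K * d ≤ 3 * K * K.factorial * k := by
    rw [hd]
    calc K * (K.factorial * (2 * k + 1)) ≤ K * (K.factorial * (3 * k)) := by gcongr; omega
      _ = _ := by ring
  -- the places
  have hjD : ∀ j : Fin K, s + j * d ≤ D := by
    intro j
    have h1 : (j : ℕ) * d ≤ K * d := Nat.mul_le_mul_right _ j.2.le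
    have h2 : ((K * d : ℕ) : ℝ) + s ≤ D := by
      have h3 : 0 ≤ c * Pool.Agent.H256R2.SC.ff X := mul_nonneg hc.le hffX.2.1
      linarith
    have h3 : K * d + s ≤ D := by exact_mod_cast h2
    omega
  obtain ⟨P, hP⟩ : ∃ P : Finset ℕ, P = univ.image (fun j : Fin K => s + j * d) := ⟨_, rfl⟩
  have hPcard : P.card = K := by
    rw [hP, card_image_of_injective, card_univ, Fintype.card_fin]
    intro j j' h
    have h1 : (j : ℕ) * d = j' * d := by simpa using h
    exact Fin.ext (Nat.eq_of_mul_eq_mul_right hd1 h1)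
  have hPV : P ⊆ VS (WW X S ps) a D := by
    intro v hv
    rw [hP, mem_image] at hv
    obtain ⟨j, -, rfl⟩ := hv
    unfold VS
    rw [mem_filter, mem_range]
    exact ⟨Nat.lt_succ_of_le (hjD j), hcop j⟩
  obtain ⟨H, hHP, hmH, hHcard⟩ := hwin a D hD hV P hPV hPcard
  refine hHcard.trans ?_
  have hfin : {n : ℕ | X < n ∧ (n : ℝ) ≤ 4 * X ∧
      (∀ p : ℕ, p.Prime → |(p : ℝ) - n| ≤ c / 2 * f X → n ≤ p ∧ p ≤ n + 3 * K * K.factorial * k) ∧
      m ≤ ((Icc n (n + 3 * K * K.factorial * k)).filter Nat.Prime).card ∧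
      ∀ p : ℕ, p.Prime → |(p : ℝ) - n| ≤ c / 2 * f X → ∀ i : ℕ, 1 ≤ i → i ≤ k →
        c / 2 / k * Nat.primeCounting ⌊T⌋₊ ≤ smallDivisors X (p + i) ∧
        c / 2 / k * Nat.primeCounting ⌊T⌋₊ ≤ smallDivisors X (p - i)}.Finite := by
    apply (Set.finite_Iic ⌊4 * X⌋₊).subset
    intro n hn
    exact Set.mem_Iic.2 (Nat.le_floor hn.2.1)
  have hinj : Function.Injective (fun n : ℕ => n + s) := fun x y h => by simpa using h
  rw [← Set.ncard_coe_finset, ← Set.ncard_image_of_injective _ hinj]
  apply Nat.cast_le.2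
  apply Set.ncard_le_ncard _ hfin
  rintro z ⟨n, hn, hz⟩
  obtain rfl : z = n + s := hz.symm
  rw [Finset.mem_coe] at hn
  unfold RS at hn
  rw [mem_filter, mem_Icc] at hn
  obtain ⟨⟨hn1, hn3⟩, hXn, hna, hex⟩ := hn
  have hn3' : (n : ℝ) ≤ 3 * X := (Nat.le_floor_iff (by linarith)).1 hn3
  have hfX : f X = Pool.Agent.H256R2.SC.ff X := rfl
  have hff0 : 0 ≤ Pool.Agent.H256R2.SC.ff X := hffX.2.1
  have hcff : c / 2 * f X ≤ c * Pool.Agent.H256R2.SC.ff X := by
    rw [hfX]
    nlinarith
  have hsD : s ≤ D := by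
    have h1 : (s : ℝ) ≤ D := by
      have h2 : (0 : ℝ) ≤ ((K * d : ℕ) : ℝ) := Nat.cast_nonneg _
      have h3 : 0 ≤ c * Pool.Agent.H256R2.SC.ff X := mul_nonneg hc.le hff0
      linarith
    exact_mod_cast h1
  -- the primes near `n + s`
  have hprimes : ∀ p : ℕ, p.Prime → |(p : ℝ) - (n + s : ℕ)| ≤ c / 2 * f X →
      ∃ j : Fin K, p = n + (s + j * d) := by
    intro p hp hpn
    have h1 := abs_le.1 (hpn.trans hcff)
    push_cast at h1
    have h2 : (n : ℝ) ≤ p := by linarith [h1.1]
    have h2' : n ≤ p := by exact_mod_cast h2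
    obtain ⟨v, rfl⟩ := Nat.exists_eq_add_of_le h2'
    have h3 : (v : ℝ) ≤ D := by
      have := h1.2
      push_cast at this
      have h4 : (0 : ℝ) ≤ ((K * d : ℕ) : ℝ) := Nat.cast_nonneg _
      linarith
    have h4 := (hex v (by exact_mod_cast h3)).1 hp
    have h5 := hHP h4
    rw [hP, mem_image] at h5
    obtain ⟨j, -, hj⟩ := h5
    exact ⟨j, by rw [hj]⟩
  have hjK : ∀ j : Fin K, (j : ℕ) * d ≤ 3 * K * K.factorial * k := fun j =>
    (Nat.mul_le_mul_right _ j.2.le).trans hdk
  refine ⟨?_, ?_, ?_, ?_, ?_⟩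
  · push_cast
    have : (0 : ℝ) ≤ s := Nat.cast_nonneg s
    linarith
  · push_cast
    have : (s : ℝ) ≤ D := by exact_mod_cast hsD
    linarith
  · intro p hp hpn
    obtain ⟨j, rfl⟩ := hprimes p hp hpn
    have := hjK j
    constructor <;> omega
  · refine hmH.trans ?_
    have hinj2 : Function.Injective (fun v : ℕ => n + v) := fun x y h => by simpa using h
    rw [← card_image_of_injective H hinj2]
    apply card_le_card
    intro p hp
    rw [mem_image] at hp
    obtain ⟨v, hv, rfl⟩ := hp
    have h5 := hHP hv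
    rw [hP, mem_image] at h5
    obtain ⟨j, -, rfl⟩ := h5
    have h6 := hjK j
    rw [mem_filter, mem_Icc]
    refine ⟨by omega, (hex _ (hjD j)).2 hv⟩
  · intro p hp hpn i hi1 hik
    obtain ⟨j, rfl⟩ := hprimes p hp hpn
    have hkr : (0 : ℝ) < k := by exact_mod_cast (by omega : 0 < k)
    have hpi2 : c / 2 / k * Nat.primeCounting ⌊T⌋₊ ≤ c / k * (T / A) := by
      have h1 : (Nat.primeCounting ⌊T⌋₊ : ℝ) ≤ 2 * (T / A) := by
        rw [div_lt_iff₀ hT0] at hpiX
        rw [mul_div_assoc', le_div_iff₀ hA0]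
        exact hpiX.le
      calc c / 2 / k * Nat.primeCounting ⌊T⌋₊ ≤ c / 2 / k * (2 * (T / A)) := by gcongr
        _ = c / k * (T / A) := by ring
    have hkey : ∀ (z : ℤ) (v : ℕ), 1 ≤ |z| → |z| ≤ k → (v : ℤ) = n + ((s + j * d : ℕ) : ℤ) + z →
        c / 2 / k * Nat.primeCounting ⌊T⌋₊ ≤ smallDivisors X v := by
      intro z v hz1 hz2 hv
      refine hpi2.trans ((hrich j z hz1 hz2).trans ?_)
      unfold smallDivisors
      apply Nat.cast_le.2
      apply card_le_card
      intro q hq
      rw [mem_filter] at hq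
      obtain ⟨hq1, hq2⟩ := hq
      have hqm := mem_PW.1 hq1
      rw [mem_filter, mem_Icc]
      refine ⟨⟨hqm.2.1.pos, ?_⟩, hqm.2.1, ?_⟩
      · apply Nat.le_floor
        have h1 : (q : ℝ) ≤ yy X := by exact_mod_cast hqm.1
        have h2 : (yy X : ℝ) ≤ T / 1000 := Nat.floor_le (by positivity)
        linarith
      · rw [← Int.natCast_dvd_natCast, hv]
        have h3 : (q : ℤ) ∣ (n : ℤ) - a := by
          have h4 : n ≡ a [MOD q] := hna.of_dvd ((prime_dvd_WW hqm.2.1).2 hq1)
          exact Nat.modEq_iff_dvd.1 h4.symm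
        have e : (n : ℤ) + ((s + j * d : ℕ) : ℤ) + z = (n - a) + (a + ((s + j * d : ℕ) : ℤ) + z) := by ring
        rw [e]
        exact dvd_add h3 hq2
    have hip : i ≤ n + (s + j * d) := by
      have h1 : (i : ℝ) ≤ n := by
        have h2 : (i : ℝ) ≤ k := by exact_mod_cast hik
        have h3 : (k : ℝ) ≤ k * A := le_mul_of_one_le_right hkr.le (by linarith)
        have h4 : c / 2 * T ≤ c * T := by nlinarith
        have h5 : (0 : ℝ) ≤ ((K * d : ℕ) : ℝ) := Nat.cast_nonneg _
        have h6 : (k : ℝ) ≤ X := by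
          have h7 : k ≤ D := by
            have h8 : k ≤ K * d := by
              have h9 : k ≤ d := by
                rw [hd]
                have : 1 ≤ K.factorial := Nat.factorial_pos K
                nlinarith
              exact h9.trans (Nat.le_mul_of_pos_left _ hK1)
            have h9 : ((K * d : ℕ) : ℝ) ≤ D := by
              have h10 : 0 ≤ c * Pool.Agent.H256R2.SC.ff X := mul_nonneg hc.le hff0
              have h11 : (0 : ℝ) ≤ s := Nat.cast_nonneg s
              linarith
            exact h8.trans (by exact_mod_cast h9)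
          have h8 : (k : ℝ) ≤ D := by exact_mod_cast h7
          linarith
        linarith
      have h2 : i ≤ n := by exact_mod_cast h1
      omega
    constructor
    · refine hkey (i : ℤ) _ ?_ ?_ ?_
      · rw [Nat.abs_cast]; exact_mod_cast hi1
      · rw [Nat.abs_cast]; exact_mod_cast hik
      · push_cast; ring
    · refine hkey (-(i : ℤ)) _ ?_ ?_ ?_
      · rw [abs_neg, Nat.abs_cast]; exact_mod_cast hi1
      · rw [abs_neg, Nat.abs_cast]; exact_mod_cast hik
      · rw [Nat.cast_sub hip]
        push_cast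
        ring

end Pool.Agent.Results.MP_b0c12c_nt.RichNeighbours
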